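import Pool.Agent.N563.LSP.One
set_option autoImplicit false

open MeasureTheory Set Filter Topology
open scoped ENNReal
namespace Pool.Agent.N563.LSP
open Pool.Agent.TH280.LS
open Pool.Agent.TH986.SUM (Ps Pm Ps_sum Ps_abs continuous_Ps continuous_Pm Pm_nonneg Pm_le_one
  continuous_ra P_one)

/-- the measure on time and space -/
noncomputable def nu : Measure (ℝ × ℝ) := (volume.restrict (Icc (1 : ℝ) 2)).prod volume

instance : SFinite nu := by unfold nu; infer_instance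

lemma nu_lint {f : ℝ × ℝ → ℝ≥0∞} (hf : Measurable f) :
    ∫⁻ z, f z ∂nu = ∫⁻ t in Icc (1 : ℝ) 2, ∫⁻ x : ℝ, f (t, x) := by
  unfold nu
  rw [lintegral_prod _ hf.aemeasurable]

lemma nu_ae {P : ℝ × ℝ → Prop} (h : ∀ t ∈ Icc (1 : ℝ) 2, ∀ x, P (t, x)) :
    ∀ᵐ z ∂nu, P z := by
  have h1 : ∀ᵐ z ∂nu, z.1 ∈ Icc (1 : ℝ) 2 := by
    unfold nu
    have h2 : ∀ᵐ t ∂(volume.restrict (Icc (1 : ℝ) 2)), t ∈ Icc (1 : ℝ) 2 :=
      ae_restrict_mem measurableSet_Icc
    exact Measure.quasiMeasurePreserving_fst.ae h2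
  filter_upwards [h1] with z hz
  exact h z.1 hz z.2

theorem core (hM : S_MARC) {p ε C1 C2 : ℝ} (hp : 4 < p) (hε : 0 < ε) (hC1 : 0 < C1)
    (hC2 : 0 < C2) : ∃ C : ℝ, 0 < C ∧ ∀ (a α β : ℝ) (N : ℝ → ℝ → ℝ) (g : ℝ → ℝ), 0 < a →
    α + (p - 4) * β ≤ -(p * ε) → Measurable (Function.uncurry N) →
    (∀ t ∈ Icc (1 : ℝ) 2, ∀ r, 0 < r → |N t r| ≤ g r) → Integrable (fun ξ => g (ra a ξ)) →
    (∀ (j : ℕ) (G : ℝ → ℂ), Integrable G →
      ∫⁻ t in Icc (1 : ℝ) 2, ∫⁻ x : ℝ, ‖Ux a (fun r => N t r * Ps j r) G x‖ₑ ^ 4 ≤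
        ENNReal.ofReal (C1 * ((2 : ℝ) ^ j) ^ α) * ∫⁻ x : ℝ, ‖G x‖ₑ ^ 4) →
    (∀ (j : ℕ) (G : ℝ → ℂ) (l : ℝ), Integrable G → (∀ x, ‖G x‖ ≤ l) → ∀ t ∈ Icc (1 : ℝ) 2,
      ∀ x, ‖Ux a (fun r => N t r * Ps j r) G x‖ ≤ C2 * ((2 : ℝ) ^ j) ^ β * l) →
    ∀ G : ℝ → ℂ, Integrable G →
    ∫⁻ t in Icc (1 : ℝ) 2, ∫⁻ x : ℝ, ‖Ux a (N t) G x‖ₑ ^ p ≤
      ENNReal.ofReal C * ∫⁻ x : ℝ, ‖G x‖ₑ ^ p := by
  obtain ⟨C3, hC3, hM⟩ := hM p hp
  have hp0 : 0 < p := by linarith
  -- geometric series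
  set ρ : ℝ := (2 : ℝ) ^ (-ε) with hρ
  have hρ0 : 0 < ρ := Real.rpow_pos_of_pos (by norm_num) _
  have hρ1 : ρ < 1 := Real.rpow_lt_one_of_one_lt_of_neg (by norm_num) (by linarith)
  set K : ℝ := C3 * C1 * C2 ^ (p - 4) with hK
  have hK0 : 0 < K := by
    have := Real.rpow_pos_of_pos hC2 (p - 4)
    positivity
  set D : ℝ := K ^ (1 / p) * (1 - ρ)⁻¹ with hD
  have h1ρ : 0 < 1 - ρ := by linarith
  have hD0 : 0 < D := by
    have := Real.rpow_pos_of_pos hK0 (1 / p)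
    positivity
  refine ⟨D ^ p, Real.rpow_pos_of_pos hD0 p, ?_⟩
  intro a α β N g ha hαβ hN hb hg h4 hs G hG
  -- the operators
  set T : ℕ → (ℝ → ℂ) → ℝ × ℝ → ℂ := fun j G z =>
    (Icc (1 : ℝ) 2).indicator (fun t => Ux a (fun r => N t r * Ps j r) G z.2) z.1 with hT
  have hNj : ∀ j : ℕ, Measurable (Function.uncurry (fun t r => N t r * Ps j r)) := by
    intro j
    exact hN.mul ((continuous_Ps j).measurable.comp measurable_snd)
  have hNt : ∀ t, Measurable (N t) := fun t => hN.comp measurable_prodMk_left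
  have hTm : ∀ j G, Integrable G → Measurable (T j G) := by
    intro j G hG
    have h1 := ux_meas a (hNj j) hG
    have h2 : T j G = ({z : ℝ × ℝ | z.1 ∈ Icc (1 : ℝ) 2}).indicator
        (fun z => Ux a (fun r => N z.1 r * Ps j r) G z.2) := by
      funext z
      rw [hT]
      simp only [indicator, mem_ofPred_eq]
    rw [h2]
    exact h1.indicator (measurable_fst measurableSet_Icc)
  have hTv : ∀ j G t x, t ∈ Icc (1 : ℝ) 2 → T j G (t, x) =
      Ux a (fun r => N t r * Ps j r) G x := by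
    intro j G t x ht
    rw [hT]
    simp only [indicator_of_mem ht]
  have hbj : ∀ (j : ℕ), ∀ t ∈ Icc (1 : ℝ) 2, ∀ r, 0 < r → |N t r * Ps j r| ≤ g r := by
    intro j t ht r hr
    rw [abs_mul]
    exact (mul_le_of_le_one_right (abs_nonneg _) (Ps_abs j r)).trans (hb t ht r hr)
  -- each piece
  have hpiece : ∀ j : ℕ, ∫⁻ z, ‖T j G z‖ₑ ^ p ∂nu ≤
      ENNReal.ofReal (K * ((2 : ℝ) ^ j) ^ (α + (p - 4) * β)) * ∫⁻ x : ℝ, ‖G x‖ₑ ^ p := by
    intro j
    have h2j : (0 : ℝ) < 2 ^ j := by positivity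
    have hA : 0 < C1 * ((2 : ℝ) ^ j) ^ α := mul_pos hC1 (Real.rpow_pos_of_pos h2j _)
    have hB : 0 < C2 * ((2 : ℝ) ^ j) ^ β := mul_pos hC2 (Real.rpow_pos_of_pos h2j _)
    have h5 := hM _ _ (T j) nu inferInstance hA hB (hTm j) ?_ ?_ ?_ G hG
    · refine h5.trans (le_of_eq ?_)
      congr 2
      rw [Real.mul_rpow hC2.le (Real.rpow_nonneg h2j.le _), ← Real.rpow_mul h2j.le,
        Real.rpow_add h2j, hK, mul_comm β]
      ring
    · intro G₁ G₂ h₁ h₂ z
      rw [hT]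
      by_cases hz : z.1 ∈ Icc (1 : ℝ) 2
      · simp only [indicator_of_mem hz]
        exact ux_add a ((hNj j).comp measurable_prodMk_left) (hbj j z.1 hz) ha hg h₁ h₂ z.2
      · simp only [indicator_of_notMem hz, add_zero]
    · intro G' hG'
      rw [nu_lint ((hTm j G' hG').enorm.pow_const 4)]
      refine le_trans (le_of_eq ?_) (h4 j G' hG')
      refine setLIntegral_congr_fun measurableSet_Icc fun t ht => ?_
      refine lintegral_congr fun x => ?_
      rw [hTv j G' t x ht]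
    · intro G' l hG' hl
      refine nu_ae fun t ht x => ?_
      rw [hTv j G' t x ht]
      exact hs j G' l hG' hl t ht x
  -- norms
  set W : ℝ≥0∞ := (∫⁻ x : ℝ, ‖G x‖ₑ ^ p) ^ (1 / p) with hW
  have hpt : (ENNReal.ofReal p).toReal = p := ENNReal.toReal_ofReal hp0.le
  have hp0' : ENNReal.ofReal p ≠ 0 := by simpa using hp0
  have hnorm : ∀ j : ℕ, eLpNorm (T j G) (ENNReal.ofReal p) nu ≤
      ENNReal.ofReal (K ^ (1 / p) * ρ ^ j) * W := by
    intro j
    rw [eLpNorm_eq_lintegral_rpow_enorm_toReal hp0' ENNReal.ofReal_ne_top, hpt]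
    refine (ENNReal.rpow_le_rpow (hpiece j) (by positivity)).trans ?_
    rw [ENNReal.mul_rpow_of_nonneg _ _ (by positivity)]
    refine mul_le_mul_left ?_ _
    have h2j : (1 : ℝ) ≤ 2 ^ j := one_le_pow₀ (by norm_num)
    rw [ENNReal.ofReal_rpow_of_nonneg (by positivity) (by positivity)]
    apply ENNReal.ofReal_le_ofReal
    rw [Real.mul_rpow hK0.le (by positivity)]
    refine mul_le_mul_of_nonneg_left ?_ (by positivity)
    rw [← Real.rpow_mul (by positivity)]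
    calc ((2 : ℝ) ^ j) ^ ((α + (p - 4) * β) * (1 / p))
        ≤ ((2 : ℝ) ^ j) ^ (-ε) := by
          refine Real.rpow_le_rpow_of_exponent_le h2j ?_
          rw [mul_one_div, div_le_iff₀ hp0]
          linarith
      _ = ρ ^ j := by
          rw [hρ, ← Real.rpow_natCast, ← Real.rpow_natCast, ← Real.rpow_mul (by norm_num),
            ← Real.rpow_mul (by norm_num), mul_comm]
  have hsum : ∀ n : ℕ, eLpNorm (fun z => ∑ j ∈ Finset.range n, T j G z) (ENNReal.ofReal p) nu ≤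
      ENNReal.ofReal D * W := by
    intro n
    have h6 : (fun z => ∑ j ∈ Finset.range n, T j G z) = ∑ j ∈ Finset.range n, T j G := by
      funext z
      rw [Finset.sum_apply]
    rw [h6]
    refine (eLpNorm_sum_le (fun j _ => (hTm j G hG).aestronglyMeasurable) ?_).trans ?_
    · rw [← ENNReal.ofReal_one]
      exact ENNReal.ofReal_le_ofReal (by linarith)
    refine (Finset.sum_le_sum fun j _ => hnorm j).trans ?_
    rw [← Finset.sum_mul]
    refine mul_le_mul_left ?_ _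
    rw [← ENNReal.ofReal_sum_of_nonneg (fun j _ => by positivity), ← Finset.mul_sum]
    apply ENNReal.ofReal_le_ofReal
    rw [hD]
    refine mul_le_mul_of_nonneg_left ?_ (by positivity)
    rw [← tsum_geometric_of_lt_one hρ0.le hρ1]
    exact (summable_geometric_of_lt_one hρ0.le hρ1).sum_le_tsum _ (fun i _ => by positivity)
  -- the limit
  have hlim : eLpNorm (fun z : ℝ × ℝ => Ux a (N z.1) G z.2) (ENNReal.ofReal p) nu ≤
      ENNReal.ofReal D * W := by
    have h7 := Lp.eLpNorm_lim_le_liminf_eLpNorm (μ := nu) (p := ENNReal.ofReal p)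
      (f := fun n z => ∑ j ∈ Finset.range n, T j G z)
      (fun n => (Finset.measurable_sum _ fun j _ => hTm j G hG).aestronglyMeasurable)
      (fun z : ℝ × ℝ => Ux a (N z.1) G z.2) (nu_ae fun t ht x => ?_)
    · refine h7.trans ?_
      refine (liminf_le_liminf (v := fun _ => ENNReal.ofReal D * W)
        (Eventually.of_forall hsum)).trans (le_of_eq (liminf_const _))
    · have h8 := ux_tendsto a (hNt t) (hb t ht) ha hg hG x
      refine h8.congr fun n => ?_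
      refine Finset.sum_congr rfl fun j _ => ?_
      rw [hTv j G t x ht]
  rw [eLpNorm_eq_lintegral_rpow_enorm_toReal hp0' ENNReal.ofReal_ne_top, hpt,
    nu_lint ((ux_meas a hN hG).enorm.pow_const p)] at hlim
  have h9 := ENNReal.rpow_le_rpow hlim hp0.le
  rw [← ENNReal.rpow_mul, one_div, inv_mul_cancel₀ hp0.ne', ENNReal.rpow_one,
    ENNReal.mul_rpow_of_nonneg _ _ hp0.le, hW, ← ENNReal.rpow_mul, one_div,
    inv_mul_cancel₀ hp0.ne', ENNReal.rpow_one, ENNReal.ofReal_rpow_of_pos hD0] at h9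
  exact h9

end Pool.Agent.N563.LSP
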