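import Pool.Agent.N563.LSP.Stm
import Pool.Agent.R462.HS.Slice
set_option autoImplicit false

/-! # Data whose slices satisfy the Hardy-Littlewood inequality -/

open MeasureTheory Set Filter
open scoped ENNReal FourierTransform RealInnerProductSpace Topology

namespace Pool.Agent.N563.LSP

open Pool.Agent.TH280.LS

/-- the Hardy-Littlewood inequality -/
def HLi {m : ℕ} (p Λ : ℝ) (g : (Fin m → ℝ) → ℂ) : Prop :=
  ∫⁻ η : Fin m → ℝ, ENNReal.ofReal ((∏ i, |η i|) ^ (p - 2)) * ‖ftm m g η‖ₑ ^ p ≤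
    ENNReal.ofReal Λ * ∫⁻ y, ‖g y‖ₑ ^ p

/-- the class of data with almost all slices in `P` -/
def HCls (m : ℕ) (P : ((Fin m → ℝ) → ℂ) → Prop) (f : EuclideanSpace ℝ (Fin (m + 1)) → ℂ) : Prop :=
  ∃ v : OrthonormalBasis (Fin (m + 1)) ℝ (EuclideanSpace ℝ (Fin (m + 1))), ∀ᵐ x : ℝ,
    P (fun y : Fin m → ℝ => f (∑ i, y i • v i.castSucc + x • v (Fin.last m)))

/-- all `p ≥ 2` -/
theorem tw_all (hTP : S_TP) (hTPP : S_TPP) {m : ℕ} (hm : 0 < m) {p s : ℝ} (hp : 2 ≤ p)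
    (hs : 0 < s) (hs2 : 1 / 2 - 2 / p < s) :
    K5.TW m (fun η => (∏ i, |η i|) ^ (p - 2)) s p := by
  rcases le_or_gt p 4 with h | h
  · obtain ⟨C, hC, h1⟩ := hTP m s p hm hs hp h
    exact ⟨C, hC, h1⟩
  · obtain ⟨C, hC, h1⟩ := hTPP m s p hm h hs2
    exact ⟨C, hC, h1⟩

theorem hcls_one (hTP : S_TP) (hTPP : S_TPP) {m : ℕ} (hm : 0 < m) {p s Λ : ℝ} (hp : 2 ≤ p)
    (hs : 0 < s) (hs2 : 1 / 2 - 2 / p < s) (hΛ : 0 < Λ) {P : ((Fin m → ℝ) → ℂ) → Prop}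
    (hP : ∀ g, Integrable g → P g → HLi p Λ g) : OneD m s p (HCls m P) := by
  obtain ⟨C, hC, h⟩ := Pool.Agent.R462.HS.one_datum_ae m (fun η => (∏ i, |η i|) ^ (p - 2)) s p Λ
    hs hΛ (tw_all hTP hTPP hm hp hs hs2)
  refine ⟨C, hC, fun f hf hc => h f hf ?_⟩
  obtain ⟨v, hv⟩ := hc
  refine ⟨v.repr, fun w => f (v.repr.symm w), fun z => by simp, ?_⟩
  filter_upwards [hv] with x hx hi
  have heq : ∀ y : Fin m → ℝ, f (v.repr.symm ((Zc m).symm (x, y))) =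
      f (∑ i, y i • v i.castSucc + x • v (Fin.last m)) := by
    intro y
    rw [← v.sum_repr_symm, Fin.sum_univ_castSucc]
    have h4 : Zc m ((Zc m).symm (x, y)) = (x, y) := MeasurableEquiv.apply_symm_apply _ _
    rw [Zc_apply] at h4
    have h5 : ((Zc m).symm (x, y)) (Fin.last m) = x := congrArg Prod.fst h4
    have h6 : ∀ i : Fin m, ((Zc m).symm (x, y)) i.castSucc = y i :=
      fun i => congrFun (congrArg Prod.snd h4) i
    rw [h5]
    simp only [h6]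
  simp only [heq] at hi ⊢
  exact hP _ hi hx

end Pool.Agent.N563.LSP
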