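import Pool.Agent.N563.LSP.Stm
set_option autoImplicit false

/-! # The propagators on the line for `p > 4`: summation of the dyadic pieces -/

open MeasureTheory Set Filter Topology
open scoped ENNReal

namespace Pool.Agent.N563.LSP

open Pool.Agent.TH280.LS
open Pool.Agent.TH986.SUM (Ps Pm Ps_sum Ps_abs continuous_Ps continuous_Pm Pm_nonneg Pm_le_one
  continuous_ra P_one)

lemma ft_cont {G : ℝ → ℂ} (hG : Integrable G) : Continuous (ft G) := by
  have h : ft G = FourierTransform.fourier G := funext fun ξ => ft_eq G ξ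
  rw [h]
  exact VectorFourier.fourierIntegral_continuous Real.continuous_fourierChar continuous_inner hG

/-- joint measurability -/
lemma ux_meas (a : ℝ) {N : ℝ → ℝ → ℝ} (hN : Measurable (Function.uncurry N)) {G : ℝ → ℂ}
    (hG : Integrable G) : Measurable (fun z : ℝ × ℝ => Ux a (N z.1) G z.2) := by
  have h1 : StronglyMeasurable (fun q : (ℝ × ℝ) × ℝ =>
      e (q.1.2 * q.2) * (((N q.1.1 (ra a q.2) : ℝ) : ℂ) * ft G q.2)) := by
    apply Measurable.stronglyMeasurable
    refine Measurable.mul (measurable_e.comp (by fun_prop)) (Measurable.mul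
      (Complex.measurable_ofReal.comp ?_) ((ft_cont hG).measurable.comp measurable_snd))
    have h2 : Measurable (fun q : (ℝ × ℝ) × ℝ => (q.1.1, ra a q.2)) :=
      (measurable_fst.comp measurable_fst).prodMk
        ((continuous_ra a).measurable.comp measurable_snd)
    exact hN.comp h2
  exact (h1.integral_prod_right (ν := volume)).measurable

lemma ux_int (a : ℝ) {M : ℝ → ℝ} {g : ℝ → ℝ} (hM : Measurable M)
    (hb : ∀ r, 0 < r → |M r| ≤ g r) (ha : 0 < a) (hg : Integrable (fun ξ => g (ra a ξ)))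
    {G : ℝ → ℂ} (hG : Integrable G) (x : ℝ) :
    Integrable (fun ξ => e (x * ξ) * (((M (ra a ξ) : ℝ) : ℂ) * ft G ξ)) := by
  have hra : ∀ ξ, 0 < ra a ξ := fun ξ => Real.sqrt_pos.2 (by positivity)
  refine Integrable.mono' (hg.mul_const (∫ y, ‖G y‖)) ?_ ?_
  · refine Measurable.aestronglyMeasurable ?_
    exact Measurable.mul (measurable_e.comp (by fun_prop)) (Measurable.mul
      (Complex.measurable_ofReal.comp (hM.comp (continuous_ra a).measurable))
      (ft_cont hG).measurable)
  · refine Eventually.of_forall fun ξ => ?_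
    rw [norm_mul, norm_mul, norm_e, one_mul, Complex.norm_real, Real.norm_eq_abs]
    exact mul_le_mul (hb _ (hra ξ)) (norm_ft_le G ξ) (norm_nonneg _)
      ((abs_nonneg _).trans (hb _ (hra ξ)))

lemma ux_add (a : ℝ) {M : ℝ → ℝ} {g : ℝ → ℝ} (hM : Measurable M)
    (hb : ∀ r, 0 < r → |M r| ≤ g r) (ha : 0 < a) (hg : Integrable (fun ξ => g (ra a ξ)))
    {G₁ G₂ : ℝ → ℂ} (h₁ : Integrable G₁) (h₂ : Integrable G₂) (x : ℝ) :
    Ux a M (fun y => G₁ y + G₂ y) x = Ux a M G₁ x + Ux a M G₂ x := by
  unfold Ux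
  rw [← integral_add (ux_int a hM hb ha hg h₁ x) (ux_int a hM hb ha hg h₂ x)]
  refine integral_congr_ae (Eventually.of_forall fun ξ => ?_)
  have h3 : ft (fun y => G₁ y + G₂ y) ξ = ft G₁ ξ + ft G₂ ξ := by
    unfold ft
    have hi : ∀ {G : ℝ → ℂ}, Integrable G → Integrable (fun y => e (-(y * ξ)) * G y) := by
      intro G hG
      refine (hG.bdd_mul (c := 1) (Continuous.aestronglyMeasurable ?_) ?_)
      · exact continuous_e.comp (by fun_prop)
      · exact Eventually.of_forall fun y => by rw [norm_e]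
    rw [← integral_add (hi h₁) (hi h₂)]
    refine integral_congr_ae (Eventually.of_forall fun y => ?_)
    simp only
    ring
  simp only [h3]
  ring

lemma ux_fsum (a : ℝ) (n : ℕ) {M : ℕ → ℝ → ℝ} {g : ℝ → ℝ} (hM : ∀ j, Measurable (M j))
    (hb : ∀ j r, 0 < r → |M j r| ≤ g r) (ha : 0 < a) (hg : Integrable (fun ξ => g (ra a ξ)))
    {G : ℝ → ℂ} (hG : Integrable G) (x : ℝ) :
    ∑ j ∈ Finset.range n, Ux a (M j) G x = Ux a (fun r => ∑ j ∈ Finset.range n, M j r) G x := by
  unfold Ux
  rw [← integral_finset_sum _ fun j _ => ux_int a (hM j) (hb j) ha hg hG x]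
  refine integral_congr_ae (Eventually.of_forall fun ξ => ?_)
  simp only
  rw [← Finset.mul_sum, ← Finset.sum_mul]
  push_cast
  rfl

/-- the partial sums converge -/
lemma ux_tendsto (a : ℝ) {M : ℝ → ℝ} {g : ℝ → ℝ} (hM : Measurable M)
    (hb : ∀ r, 0 < r → |M r| ≤ g r) (ha : 0 < a) (hg : Integrable (fun ξ => g (ra a ξ)))
    {G : ℝ → ℂ} (hG : Integrable G) (x : ℝ) :
    Tendsto (fun n => ∑ j ∈ Finset.range n, Ux a (fun r => M r * Ps j r) G x) atTop
      (𝓝 (Ux a M G x)) := by
  have hra : ∀ ξ, 0 < ra a ξ := fun ξ => Real.sqrt_pos.2 (by positivity)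
  have hPs : ∀ j r, 0 < r → |M r * Ps j r| ≤ g r := by
    intro j r hr
    rw [abs_mul]
    exact (mul_le_of_le_one_right (abs_nonneg _) (Ps_abs j r)).trans (hb r hr)
  have hmj : ∀ j, Measurable (fun r => M r * Ps j r) :=
    fun j => hM.mul (continuous_Ps j).measurable
  have h1 : ∀ n, ∑ j ∈ Finset.range n, Ux a (fun r => M r * Ps j r) G x =
      ∫ ξ : ℝ, e (x * ξ) * (((M (ra a ξ) * Pm n (ra a ξ) : ℝ) : ℂ) * ft G ξ) := by
    intro n
    rw [ux_fsum a n (M := fun j r => M r * Ps j r) hmj hPs ha hg hG x]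
    unfold Ux
    refine integral_congr_ae (Eventually.of_forall fun ξ => ?_)
    simp only
    rw [← Finset.mul_sum, Ps_sum]
  simp only [h1]
  unfold Ux
  refine tendsto_integral_of_dominated_convergence (fun ξ => g (ra a ξ) * ∫ y, ‖G y‖) ?_
    (hg.mul_const _) ?_ ?_
  · intro n
    refine Measurable.aestronglyMeasurable ?_
    refine Measurable.mul (measurable_e.comp (by fun_prop)) (Measurable.mul
      (Complex.measurable_ofReal.comp ?_) (ft_cont hG).measurable)
    exact (hM.comp (continuous_ra a).measurable).mul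
      ((continuous_Pm n).measurable.comp (continuous_ra a).measurable)
  · intro n
    refine Eventually.of_forall fun ξ => ?_
    rw [norm_mul, norm_mul, norm_e, one_mul, Complex.norm_real, Real.norm_eq_abs, abs_mul]
    refine mul_le_mul ?_ (norm_ft_le G ξ) (norm_nonneg _)
      ((abs_nonneg _).trans (hb _ (hra ξ)))
    refine le_trans ?_ (hb _ (hra ξ))
    refine mul_le_of_le_one_right (abs_nonneg _) ?_
    rw [abs_of_nonneg (Pm_nonneg _ _)]
    exact Pm_le_one _ _
  · refine Eventually.of_forall fun ξ => ?_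
    refine tendsto_const_nhds.congr' ?_
    obtain ⟨k, hk⟩ := pow_unbounded_of_one_lt (ra a ξ) (show (1 : ℝ) < 2 by norm_num)
    filter_upwards [eventually_ge_atTop (k + 1)] with n hn
    obtain ⟨n', rfl⟩ : ∃ n', n = n' + 1 := ⟨n - 1, by omega⟩
    have h2 : Pm (n' + 1) (ra a ξ) = 1 := by
      refine P_one n' _ (hk.le.trans ?_)
      exact pow_le_pow_right₀ (by norm_num) (by omega)
    rw [h2, mul_one]

end Pool.Agent.N563.LSP
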