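import Pool.Agent.N563.LSP.Core
import Pool.Agent.TH280.LS.K2
import Pool.Agent.TH228.LS_T4
set_option autoImplicit false

/-! # The two propagators on the line for `p > 4` -/

open MeasureTheory Set Filter Topology
open scoped ENNReal

namespace Pool.Agent.N563.LSP

open Pool.Agent.TH280.LS

lemma gauss_ra {a τ : ℝ} (hτ : 0 < τ) :
    Integrable (fun ξ : ℝ => 3 * Real.exp (-(τ * ra a ξ ^ 2))) := by
  have h1 : (fun ξ : ℝ => 3 * Real.exp (-(τ * ra a ξ ^ 2))) =
      fun ξ => (3 * Real.exp (-(τ * a ^ 2))) * Real.exp (-τ * ξ ^ 2) := by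
    funext ξ
    have h2 : ra a ξ ^ 2 = ξ ^ 2 + a ^ 2 := Real.sq_sqrt (by positivity)
    rw [h2, mul_assoc, ← Real.exp_add]
    congr 2
    ring
  rw [h1]
  exact (integrable_exp_neg_mul_sq hτ).const_mul _

theorem onep_ (hM : S_MARC) (hP : S_PTS) (hS : S_SUPB) (hL : S_L4B) : S_ONEP := by
  intro p s hp hs
  have hp0 : 0 < p := by linarith
  have hs0 : 0 < s := by
    have : 2 / p < 1 / 2 := by
      rw [div_lt_div_iff₀ hp0 (by norm_num)]
      linarith
    linarith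
  set ε₀ : ℝ := s - (1 / 2 - 2 / p) with hε₀
  have hε₀p : 0 < ε₀ := by rw [hε₀]; linarith
  set s1 : ℝ := min (p * ε₀ / 8) (s / 2) with hs1
  have hs1p : 0 < s1 := lt_min (by positivity) (by positivity)
  have hs1s : s1 < s := (min_le_right _ _).trans_lt (by linarith)
  obtain ⟨A, hA, hPt⟩ := hP s hs0
  obtain ⟨C2, hC2, hSb⟩ := hS s hs0
  obtain ⟨C1, hC1, hL4⟩ := hL s s1 hs1p hs1s
  obtain ⟨C, hC, h⟩ := core hM hp (ε := ε₀ / 2) (C1 := C1) (C2 := C2 * A) (by positivity) hC1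
    (by positivity)
  have hαβ : -(4 * (s - s1)) + (p - 4) * (1 / 2 - s) ≤ -(p * (ε₀ / 2)) := by
    have h1 : s1 ≤ p * ε₀ / 8 := min_le_left _ _
    have h2 : p * ε₀ = p * s - p / 2 + 2 := by
      rw [hε₀]
      field_simp
      ring
    nlinarith
  refine ⟨C, hC, ?_⟩
  intro a τ G ha hτ hτ1 hG
  constructor
  · refine h a (-(4 * (s - s1))) (1 / 2 - s) (fun t => mc s τ t)
      (fun r => 3 * Real.exp (-(τ * r ^ 2))) ha hαβ (Pool.Agent.TH228.T4.mc_meas s τ) ?_
      (gauss_ra hτ) ?_ ?_ G hG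
    · intro t _ r _
      refine (mc_le s τ t r hs0).trans ?_
      have := Real.exp_pos (-(τ * r ^ 2))
      linarith
    · intro j G' hG'
      exact (hL4 a τ j G' ha hτ hτ1 hG').1
    · intro j G' l hG' hl t ht x
      have h3 := hSb A a l j (mc s τ t) G' hA ha (hPt τ t hτ hτ1 ht).1 hG' hl x
      exact h3
  · refine h a (-(4 * (s - s1))) (1 / 2 - s) (fun t => ms s τ t)
      (fun r => 3 * Real.exp (-(τ * r ^ 2))) ha hαβ (Pool.Agent.TH228.T4.ms_meas s τ) ?_
      (gauss_ra hτ) ?_ ?_ G hG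
    · intro t ht r hr
      have ht2 : |t| ≤ 2 := by rw [abs_of_nonneg (by linarith [ht.1])]; exact ht.2
      exact ms_le s τ t r hs0 ht2 hr.le
    · intro j G' hG'
      exact (hL4 a τ j G' ha hτ hτ1 hG').2
    · intro j G' l hG' hl t ht x
      have h3 := hSb A a l j (ms s τ t) G' hA ha (hPt τ t hτ hτ1 ht).2 hG' hl x
      exact h3

end Pool.Agent.N563.LSP
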