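import Pool.Agent.TH280.LS.Stm
import Pool.Agent.TH986.LS_SUM
set_option autoImplicit false

/-! # Local smoothing for `p > 4` (MP_ee74d2_an): statements of the steps

`e`, `ft`, `ra`, `mc`, `ms`, `Ux`, `Tm`, `Adm` are the definitions of `Pool.Agent.TH280.LS.Stm`,
`Ps` is the partition of `Pool.Agent.TH986.SUM`. -/

open MeasureTheory Set
open scoped ENNReal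

namespace Pool.Agent.N563.LSP

open Pool.Agent.TH280.LS

/-- the Hardy-Littlewood-Paley inequality -/
def S_HLP : Prop := ∀ q : ℝ, 1 < q → q < 2 → ∃ C : ℝ, 0 < C ∧ ∀ (g : ℝ → ℂ) (B : ℝ),
  Integrable g → (∀ x, ‖g x‖ ≤ B) →
  ∫⁻ ξ : ℝ, ENNReal.ofReal (|ξ| ^ (q - 2)) * ‖ft g ξ‖ₑ ^ q ≤
    ENNReal.ofReal C * ∫⁻ x : ℝ, ‖g x‖ₑ ^ q

/-- the dual inequality -/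
def S_E1 : Prop := ∀ p : ℝ, 2 < p → ∃ C : ℝ, 0 < C ∧ ∀ H : ℝ → ℂ, Integrable H →
  ∫⁻ y : ℝ, ‖∫ η : ℝ, e (y * η) * H η‖ₑ ^ p ≤
    ENNReal.ofReal C * ∫⁻ η : ℝ, ENNReal.ofReal (|η| ^ (p - 2)) * ‖H η‖ₑ ^ p

/-- the dual inequality in several variables -/
def S_EM : Prop := ∀ p : ℝ, 2 < p → ∃ C : ℝ, 0 < C ∧ ∀ (m : ℕ) (H : (Fin m → ℝ) → ℂ),
  Integrable H →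
  ∫⁻ y : Fin m → ℝ, ‖∫ η : Fin m → ℝ, e (∑ i, y i * η i) * H η‖ₑ ^ p ≤
    ENNReal.ofReal (C ^ m) * ∫⁻ η : Fin m → ℝ,
      ENNReal.ofReal ((∏ i, |η i|) ^ (p - 2)) * ‖H η‖ₑ ^ p

/-- kernels of Lipschitz multipliers -/
def S_KER : Prop := ∃ C : ℝ, 0 < C ∧ ∀ (R B L : ℝ) (M : ℝ → ℂ), 0 < R → 0 < B → 0 < L →
  (∀ ξ, ‖M ξ‖ ≤ B) → (∀ ξ ξ', ‖M ξ - M ξ'‖ ≤ L * |ξ - ξ'|) → (∀ ξ, R < |ξ| → M ξ = 0) →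
  ∫⁻ x : ℝ, ‖∫ ξ : ℝ, e (x * ξ) * M ξ‖ₑ ≤ ENNReal.ofReal (C * Real.sqrt (R * B * L))

/-- operators with integrable kernels -/
def S_CONV : Prop := ∀ (M : ℝ → ℂ) (κ : ℝ), Continuous M → Integrable M → 0 ≤ κ →
  ∫⁻ x : ℝ, ‖∫ ξ : ℝ, e (x * ξ) * M ξ‖ₑ ≤ ENNReal.ofReal κ →
  ∀ G : ℝ → ℂ, Integrable G →
    (∀ l : ℝ, (∀ x, ‖G x‖ ≤ l) → ∀ x, ‖∫ ξ : ℝ, e (x * ξ) * (M ξ * ft G ξ)‖ ≤ κ * l) ∧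
    ∃ G' : ℝ → ℂ, Integrable G' ∧ (∀ ξ, ft G' ξ = M ξ * ft G ξ) ∧
      ∫⁻ x : ℝ, ‖G' x‖ₑ ^ 4 ≤ ENNReal.ofReal (κ ^ 4) * ∫⁻ x : ℝ, ‖G x‖ₑ ^ 4

/-- symbols of order `-s` which oscillate at unit scale -/
def Fam (s A : ℝ) (M : ℝ → ℝ) : Prop := (∀ r, 0 < r → |M r| ≤ A * (1 + r) ^ (-s)) ∧
  ∀ r r', 0 < r → r ≤ r' → |M r - M r'| ≤ A * (1 + r) ^ (-s) * (r' - r)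

def S_PTS : Prop := ∀ s : ℝ, 0 < s → ∃ A : ℝ, 0 < A ∧ ∀ τ t : ℝ, 0 < τ → τ ≤ 1 →
  t ∈ Icc (1 : ℝ) 2 → Fam s A (mc s τ t) ∧ Fam s A (ms s τ t)

/-- the pieces on bounded functions -/
def S_SUPB : Prop := ∀ s : ℝ, 0 < s → ∃ C : ℝ, 0 < C ∧
  ∀ (A a l : ℝ) (j : ℕ) (M : ℝ → ℝ) (G : ℝ → ℂ), 0 < A → 0 < a → Fam s A M → Integrable G →
  (∀ x, ‖G x‖ ≤ l) →
  ∀ x, ‖Ux a (fun r => M r * Pool.Agent.TH986.SUM.Ps j r) G x‖ ≤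
    C * A * ((2 : ℝ) ^ j) ^ (1 / 2 - s) * l

/-- the pieces in `L^4` -/
def S_L4B : Prop := ∀ s s1 : ℝ, 0 < s1 → s1 < s → ∃ C : ℝ, 0 < C ∧
  ∀ (a τ : ℝ) (j : ℕ) (G : ℝ → ℂ), 0 < a → 0 < τ → τ ≤ 1 → Integrable G →
  (∫⁻ t in Icc (1 : ℝ) 2, ∫⁻ x : ℝ,
      ‖Ux a (fun r => mc s τ t r * Pool.Agent.TH986.SUM.Ps j r) G x‖ₑ ^ 4 ≤
    ENNReal.ofReal (C * ((2 : ℝ) ^ j) ^ (-(4 * (s - s1)))) * ∫⁻ x : ℝ, ‖G x‖ₑ ^ 4) ∧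
  (∫⁻ t in Icc (1 : ℝ) 2, ∫⁻ x : ℝ,
      ‖Ux a (fun r => ms s τ t r * Pool.Agent.TH986.SUM.Ps j r) G x‖ₑ ^ 4 ≤
    ENNReal.ofReal (C * ((2 : ℝ) ^ j) ^ (-(4 * (s - s1)))) * ∫⁻ x : ℝ, ‖G x‖ₑ ^ 4)

/-- interpolation between `L^4` and `L^∞` -/
def S_MARC : Prop := ∀ p : ℝ, 4 < p → ∃ C : ℝ, 0 < C ∧
  ∀ (A B : ℝ) (T : (ℝ → ℂ) → ℝ × ℝ → ℂ) (μ : Measure (ℝ × ℝ)), SFinite μ → 0 < A → 0 < B →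
  (∀ G, Integrable G → Measurable (T G)) →
  (∀ G₁ G₂, Integrable G₁ → Integrable G₂ → ∀ z, T (fun x => G₁ x + G₂ x) z = T G₁ z + T G₂ z) →
  (∀ G, Integrable G → ∫⁻ z, ‖T G z‖ₑ ^ 4 ∂μ ≤ ENNReal.ofReal A * ∫⁻ x : ℝ, ‖G x‖ₑ ^ 4) →
  (∀ (G : ℝ → ℂ) (l : ℝ), Integrable G → (∀ x, ‖G x‖ ≤ l) → ∀ᵐ z ∂μ, ‖T G z‖ ≤ B * l) →
  ∀ G, Integrable G → ∫⁻ z, ‖T G z‖ₑ ^ p ∂μ ≤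
    ENNReal.ofReal (C * A * B ^ (p - 4)) * ∫⁻ x : ℝ, ‖G x‖ₑ ^ p

/-- the two propagators on the line for `p > 4` -/
def S_ONEP : Prop := ∀ p s : ℝ, 4 < p → 1 / 2 - 2 / p < s → ∃ C : ℝ, 0 < C ∧
  ∀ (a τ : ℝ) (G : ℝ → ℂ), 0 < a → 0 < τ → τ ≤ 1 → Integrable G →
  (∫⁻ t in Icc (1 : ℝ) 2, ∫⁻ x : ℝ, ‖Ux a (mc s τ t) G x‖ₑ ^ p ≤
    ENNReal.ofReal C * ∫⁻ x : ℝ, ‖G x‖ₑ ^ p) ∧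
  (∫⁻ t in Icc (1 : ℝ) 2, ∫⁻ x : ℝ, ‖Ux a (ms s τ t) G x‖ₑ ^ p ≤
    ENNReal.ofReal C * ∫⁻ x : ℝ, ‖G x‖ₑ ^ p)

/-- several variables, `p > 4` -/
def S_TPP : Prop := ∀ (m : ℕ) (s p : ℝ), 0 < m → 4 < p → 1 / 2 - 2 / p < s → ∃ C : ℝ, 0 < C ∧
  ∀ (τ : ℝ) (G : (Fin m → ℝ) → ℝ → ℂ), 0 < τ → τ ≤ 1 → Adm m G →
  (∫⁻ t in Icc (1 : ℝ) 2, ∫⁻ x : ℝ, ∫⁻ y : Fin m → ℝ, ‖Tm m (mc s τ t) G y x‖ₑ ^ p ≤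
    ENNReal.ofReal C * ∫⁻ x : ℝ, ∫⁻ η : Fin m → ℝ,
      ENNReal.ofReal ((∏ i, |η i|) ^ (p - 2)) * ‖G η x‖ₑ ^ p) ∧
  (∫⁻ t in Icc (1 : ℝ) 2, ∫⁻ x : ℝ, ∫⁻ y : Fin m → ℝ, ‖Tm m (ms s τ t) G y x‖ₑ ^ p ≤
    ENNReal.ofReal C * ∫⁻ x : ℝ, ∫⁻ η : Fin m → ℝ,
      ENNReal.ofReal ((∏ i, |η i|) ^ (p - 2)) * ‖G η x‖ₑ ^ p)

end Pool.Agent.N563.LSP
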